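import Mathlib

/-!
Every integer that is not congruent to `8` modulo `16` is a signed sum of nine fourth powers.
-/

namespace Pool.Agent.Results.MP_143a03_nt.NineOffEight

/-- Auxiliary form with integer bases (not used in the statement of `result`). -/
def Rep (n : ℤ) : Prop :=
  ∃ y ε : Fin 9 → ℤ, (∀ i, ε i = 1 ∨ ε i = -1) ∧ n = ∑ i, ε i * y i ^ 4

theorem Rep.neg {n : ℤ} (h : Rep (-n)) : Rep n := by
  obtain ⟨y, ε, h1, h2⟩ := h
  refine ⟨y, -ε, fun i => by rcases h1 i with h | h <;> simp [h], ?_⟩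
  simp only [Pi.neg_apply, neg_mul, Finset.sum_neg_distrib, ← h2, neg_neg]

theorem mk {n : ℤ} (a b c d e f g h i s t u : ℤ) (hs : s = 1 ∨ s = -1) (ht : t = 1 ∨ t = -1)
    (hu : u = 1 ∨ u = -1)
    (H : n = a ^ 4 + b ^ 4 + c ^ 4 + d ^ 4 - e ^ 4 - f ^ 4 + s * g ^ 4 + t * h ^ 4 + u * i ^ 4) :
    Rep n := by
  refine ⟨![a, b, c, d, e, f, g, h, i], ![1, 1, 1, 1, -1, -1, s, t, u], fun j => ?_, ?_⟩
  · fin_cases j <;> simp [hs, ht, hu]
  · simp only [Fin.sum_univ_succ, Fin.sum_univ_zero, Matrix.cons_val_zero, Matrix.cons_val_succ]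
    linear_combination H

/-- Six terms with value `48 y`; the free terms have the signs `+`, `t`, `u`. -/
theorem idA {n : ℤ} (a b c t u : ℤ) (ht : t = 1 ∨ t = -1) (hu : u = 1 ∨ u = -1)
    (h : 48 ∣ n - (a ^ 4 + t * b ^ 4 + u * c ^ 4)) : Rep n := by
  obtain ⟨y, hy⟩ := h
  exact mk (y - 1) (y - 1) (y + 2) a (y + 1) (y + 1) (y - 2) b c (-1) t u (Or.inr rfl) ht hu
    (by linear_combination hy)

/-- Seven terms with value `48 y - 92`. -/
theorem idB {n : ℤ} (b c t u : ℤ) (ht : t = 1 ∨ t = -1) (hu : u = 1 ∨ u = -1)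
    (h : 48 ∣ n - (t * b ^ 4 + u * c ^ 4 - 92)) : Rep n := by
  obtain ⟨y, hy⟩ := h
  exact mk (2 * y - 1) (2 * y - 1) (2 * y + 2) (2 * y ^ 2 + 3) (2 * y ^ 2 + 4) (2 * y ^ 2 + 2)
    (2 * y ^ 2 + 3) b c 1 t u (Or.inl rfl) ht hu (by linear_combination hy)

/-- Nine terms with value `24 y - 23237936465421294081`. -/
theorem id15 {n : ℤ} (h : n % 24 = 15) : Rep n := by
  obtain ⟨y, hy⟩ : 24 ∣ n + 23237936465421294081 := by omega
  exact mk (3 * y + 29992) (3 * y - 30754) (5 * y + 31386) (5 * y - 30940)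
    (y ^ 2 + 137068093) (y ^ 2 + 137068069) (2 * y - 4397)
    (y ^ 2 + 137068086) (y ^ 2 + 137068076) 1 1 1 (Or.inl rfl) (Or.inl rfl) (Or.inl rfl)
    (by linear_combination hy)

/-- Nine terms with value `24 y - 183398020760926465`. -/
theorem id23 {n : ℤ} (h : n % 24 = 23) : Rep n := by
  obtain ⟨y, hy⟩ : 24 ∣ n + 183398020760926465 := by omega
  exact mk (3 * y + 16782) (3 * y - 16594) (5 * y + 6808) (5 * y - 6388)
    (y ^ 2 + 15544213) (y ^ 2 + 15544189) (2 * y - 7197)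
    (y ^ 2 + 15544206) (y ^ 2 + 15544196) 1 1 1 (Or.inl rfl) (Or.inl rfl) (Or.inl rfl)
    (by linear_combination hy)

/-- Nine terms with value `24 y - 99232138788119547386591465`. -/
theorem id7 {n : ℤ} (h : n % 24 = 7) : Rep n := by
  obtain ⟨y, hy⟩ : 24 ∣ n + 99232138788119547386591465 := by omega
  exact mk (3 * y + 3128467) (3 * y - 3127979) (5 * y + 882237) (5 * y - 885933)
    (y ^ 2 + 452178783318) (y ^ 2 + 452178783294) (2 * y + 56103)
    (y ^ 2 + 452178783311) (y ^ 2 + 452178783301) 1 1 1 (Or.inl rfl) (Or.inl rfl) (Or.inl rfl)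
    (by linear_combination hy)

theorem rep (n : ℤ) (hn : n % 16 ≠ 8) : Rep n := by
  have h0 : 0 ≤ n % 48 := Int.emod_nonneg _ (by norm_num)
  have h1 : n % 48 < 48 := Int.emod_lt_of_pos _ (by norm_num)
  obtain ⟨r, hr⟩ : ∃ r, n % 48 = r := ⟨_, rfl⟩
  rw [hr] at h0 h1
  interval_cases r
  · exact idA 0 0 0 1 1 (Or.inl rfl) (Or.inl rfl) (by omega)
  · exact idA 0 0 1 1 1 (Or.inl rfl) (Or.inl rfl) (by omega)
  · exact idA 0 1 1 1 1 (Or.inl rfl) (Or.inl rfl) (by omega)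
  · exact idA 1 1 1 1 1 (Or.inl rfl) (Or.inl rfl) (by omega)
  · exact idB 0 0 1 1 (Or.inl rfl) (Or.inl rfl) (by omega)
  · exact idB 0 1 1 1 (Or.inl rfl) (Or.inl rfl) (by omega)
  · exact idB 1 1 1 1 (Or.inl rfl) (Or.inl rfl) (by omega)
  · exact id7 (by omega)
  · omega
  · exact (id15 (by omega)).neg
  · exact (idB 1 3 1 1 (Or.inl rfl) (Or.inl rfl) (by omega)).neg
  · exact (idB 0 3 1 1 (Or.inl rfl) (Or.inl rfl) (by omega)).neg
  · exact (idB 0 2 1 (-1) (Or.inl rfl) (Or.inr rfl) (by omega)).neg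
  · exact (idA 1 1 3 1 1 (Or.inl rfl) (Or.inl rfl) (by omega)).neg
  · exact idA 0 1 3 (-1) (-1) (Or.inr rfl) (Or.inr rfl) (by omega)
  · exact id15 (by omega)
  · exact idA 0 0 2 1 1 (Or.inl rfl) (Or.inl rfl) (by omega)
  · exact idA 0 1 2 1 1 (Or.inl rfl) (Or.inl rfl) (by omega)
  · exact idA 0 3 3 1 1 (Or.inl rfl) (Or.inl rfl) (by omega)
  · exact idA 1 3 3 1 1 (Or.inl rfl) (Or.inl rfl) (by omega)
  · exact idB 0 2 1 1 (Or.inl rfl) (Or.inl rfl) (by omega)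
  · exact idB 1 2 1 1 (Or.inl rfl) (Or.inl rfl) (by omega)
  · exact idB 3 3 1 1 (Or.inl rfl) (Or.inl rfl) (by omega)
  · exact id23 (by omega)
  · omega
  · exact (id23 (by omega)).neg
  · exact (idB 3 3 1 1 (Or.inl rfl) (Or.inl rfl) (by omega)).neg
  · exact (idB 1 2 1 1 (Or.inl rfl) (Or.inl rfl) (by omega)).neg
  · exact (idB 0 2 1 1 (Or.inl rfl) (Or.inl rfl) (by omega)).neg
  · exact (idA 1 3 3 1 1 (Or.inl rfl) (Or.inl rfl) (by omega)).neg
  · exact idA 0 3 3 (-1) (-1) (Or.inr rfl) (Or.inr rfl) (by omega)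
  · exact id7 (by omega)
  · exact idA 0 0 2 1 (-1) (Or.inl rfl) (Or.inr rfl) (by omega)
  · exact idA 0 0 3 1 1 (Or.inl rfl) (Or.inl rfl) (by omega)
  · exact idA 0 1 3 1 1 (Or.inl rfl) (Or.inl rfl) (by omega)
  · exact idA 1 1 3 1 1 (Or.inl rfl) (Or.inl rfl) (by omega)
  · exact idB 0 2 1 (-1) (Or.inl rfl) (Or.inr rfl) (by omega)
  · exact idB 0 3 1 1 (Or.inl rfl) (Or.inl rfl) (by omega)
  · exact idB 1 3 1 1 (Or.inl rfl) (Or.inl rfl) (by omega)
  · exact id15 (by omega)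
  · omega
  · exact (id7 (by omega)).neg
  · exact (idB 1 1 1 1 (Or.inl rfl) (Or.inl rfl) (by omega)).neg
  · exact (idB 0 1 1 1 (Or.inl rfl) (Or.inl rfl) (by omega)).neg
  · exact (idB 0 0 1 1 (Or.inl rfl) (Or.inl rfl) (by omega)).neg
  · exact (idA 1 1 1 1 1 (Or.inl rfl) (Or.inl rfl) (by omega)).neg
  · exact idA 0 1 1 (-1) (-1) (Or.inr rfl) (Or.inr rfl) (by omega)
  · exact id23 (by omega)

/-- Every integer `n` not congruent to `8` modulo `16` is a signed sum of nine fourth powers. -/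
theorem result (n : ℤ) (hn : n % 16 ≠ 8) : ∃ (x : Fin 9 → ℕ) (ε : Fin 9 → ℤ),
    (∀ i, ε i = 1 ∨ ε i = -1) ∧ n = ∑ i, ε i * (x i : ℤ) ^ 4 := by
  obtain ⟨y, ε, h1, h2⟩ := rep n hn
  refine ⟨fun i => (y i).natAbs, ε, h1, h2.trans (Finset.sum_congr rfl fun i _ => ?_)⟩
  rw [Int.natCast_natAbs, Even.pow_abs (by decide)]

end Pool.Agent.Results.MP_143a03_nt.NineOffEight
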