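import Pool.Agent.Lib.MP_143a03_nt.NO.I
import Pool.Agent.Lib.MP_143a03_nt.NO.J
import Pool.Agent.Lib.MP_143a03_nt.NO.UMain

namespace Pool.Agent.Results.MP_143a03_nt.NormalOrder

open Finset Filter

/-- `m` terms suffice for exponent `k`: every positive integer is a signed sum of `m`
`k`-th powers of nonnegative integers. -/
def Suffices (k m : ℕ) : Prop :=
  ∀ n : ℕ, 0 < n → ∃ (x : Fin m → ℕ) (ε : Fin m → ℤ),
    (∀ i, ε i = 1 ∨ ε i = -1) ∧ (n : ℤ) = ∑ i, ε i * (x i : ℤ) ^ k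

/-- The easier Waring number `ν(k)`: the least positive `m` such that `m` terms suffice. -/
noncomputable def nu (k : ℕ) : ℕ := sInf {m : ℕ | 0 < m ∧ Suffices k m}

/-- `m` terms suffice for all congruences: modulo every `q ≥ 1` every integer is congruent to
a signed sum of `m` `k`-th powers of nonnegative integers. -/
def Cong (k m : ℕ) : Prop :=
  ∀ q : ℕ, 0 < q → ∀ n : ℤ, ∃ (x : Fin m → ℕ) (ε : Fin m → ℤ),
    (∀ i, ε i = 1 ∨ ε i = -1) ∧ (q : ℤ) ∣ n - ∑ i, ε i * (x i : ℤ) ^ k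

/-- The congruence number `Δ(k)`: the least `m` that suffices for all congruences. -/
noncomputable def Delta (k : ℕ) : ℕ := sInf {m : ℕ | Cong k m}

lemma cong_nu {k : ℕ} (hk : k ≠ 0) : Cong k (nu k) := by
  intro q hq n
  have h : 0 < nu k ∧ Suffices k (nu k) := Nat.sInf_mem (Pool.Agent.Lib.MP_143a03_nt.NO.rp_all hk)
  have h0 := Int.emod_nonneg n (show (q : ℤ) ≠ 0 by omega)
  obtain ⟨x, ε, h1, h2⟩ := h.2 ((n % q).toNat + q) (by omega)
  refine ⟨x, ε, h1, ?_⟩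
  rw [← h2, Nat.cast_add, Int.toNat_of_nonneg h0, ← sub_sub]
  exact (Int.dvd_self_sub_emod).sub (dvd_refl _)

open Classical in
/-- For every `ε > 0`, all but `o(x)` of the exponents `k ≤ x` satisfy
`exp ((log k)^(log 2 - ε)) ≤ Δ(k) ≤ min (ν(k), exp ((log k)^(log 2 + ε)))`. -/
theorem result (ε : ℝ) (hε : 0 < ε) :
    Tendsto (fun x : ℕ => (((Icc 1 x).filter fun k : ℕ =>
      ¬ (Real.exp (Real.log k ^ (Real.log 2 - ε)) ≤ Delta k ∧ Delta k ≤ nu k ∧
        (Delta k : ℝ) ≤ Real.exp (Real.log k ^ (Real.log 2 + ε)))).card : ℝ) / x)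
      atTop (nhds 0) := by
  have h := (Pool.Agent.Lib.MP_143a03_nt.NO.lower hε).add
    (Pool.Agent.Lib.MP_143a03_nt.NO.u_upper ε hε)
  rw [add_zero] at h
  refine squeeze_zero (fun x => by positivity) (fun x => ?_) h
  rw [← add_div, ← Nat.cast_add]
  refine div_le_div_of_nonneg_right (Nat.cast_le.2 ((card_le_card fun k hk => ?_).trans
    (card_union_le _ _))) (Nat.cast_nonneg _)
  obtain ⟨k1, k2⟩ := mem_filter.1 hk
  have k3 := cong_nu (k := k) (by have := (mem_Icc.1 k1).1; omega)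
  have k4 : Cong k (Delta k) := Nat.sInf_mem (s := {m | Cong k m}) ⟨_, k3⟩
  by_contra h0
  rw [mem_union, not_or, mem_filter, mem_filter] at h0
  refine k2 ⟨not_lt.1 fun h1 => h0.1 ⟨k1, _, k4, h1⟩, Nat.sInf_le k3, ?_⟩
  obtain ⟨m, m1, m2⟩ := not_not.1 fun h1 => h0.2 ⟨k1, h1⟩
  exact (Nat.cast_le.2 (Nat.sInf_le (s := {m | Cong k m}) m2)).trans m1

end Pool.Agent.Results.MP_143a03_nt.NormalOrder
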