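import Mathlib

namespace Pool.Agent.Results.MP_143a03_nt.NuFiveLeNine

/-- `m` terms suffice for exponent `k`: every positive integer is a signed sum of `m`
`k`-th powers of nonnegative integers. -/
def Suffices (k m : ℕ) : Prop :=
  ∀ n : ℕ, 0 < n → ∃ (x : Fin m → ℕ) (ε : Fin m → ℤ),
    (∀ i, ε i = 1 ∨ ε i = -1) ∧ (n : ℤ) = ∑ i, ε i * (x i : ℤ) ^ k

/-- The easier Waring number `ν(k)`: the least positive `m` such that `m` terms suffice. -/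
noncomputable def nu (k : ℕ) : ℕ := sInf {m : ℕ | 0 < m ∧ Suffices k m}

lemma of_int (n : ℤ) (y : Fin 9 → ℤ) (h : n = ∑ i, y i ^ 5) :
    ∃ (x : Fin 9 → ℕ) (ε : Fin 9 → ℤ),
      (∀ i, ε i = 1 ∨ ε i = -1) ∧ n = ∑ i, ε i * (x i : ℤ) ^ 5 := by
  refine ⟨fun i => (y i).natAbs, fun i => if 0 ≤ y i then 1 else -1, ?_, ?_⟩
  · intro i
    by_cases hi : 0 ≤ y i <;> simp [hi]
  · rw [h]
    refine Finset.sum_congr rfl fun i _ => ?_
    by_cases hi : 0 ≤ y i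
    · simp [hi, abs_of_nonneg hi]
    · have h0 : y i < 0 := not_le.mp hi
      simp only [hi, if_false, Int.natCast_natAbs, abs_of_neg h0]
      ring


lemma fifth_root (p : ℕ) (hp : p = 3 ∨ p = 5 ∨ p = 13 ∨ p = 43) (n : ℤ) :
    ∃ y : ℤ, (p : ℤ) ∣ y ^ 5 - n := by
  have key : ∀ r : ZMod p, ∃ s : ZMod p, s ^ 5 = r := by
    rcases hp with rfl | rfl | rfl | rfl <;> decide +kernel
  have : NeZero p := ⟨by rcases hp with rfl | rfl | rfl | rfl <;> norm_num⟩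
  obtain ⟨s, hs⟩ := key (n : ZMod p)
  refine ⟨(s.val : ℤ), ?_⟩
  rw [← ZMod.intCast_zmod_eq_zero_iff_dvd]
  push_cast
  simp [hs]

lemma combine {a b : ℤ} (hab : IsCoprime a b) (n : ℤ) (h1 : ∃ y : ℤ, a ∣ y ^ 5 - n)
    (h2 : ∃ y : ℤ, b ∣ y ^ 5 - n) : ∃ y : ℤ, a * b ∣ y ^ 5 - n := by
  obtain ⟨y1, h1⟩ := h1
  obtain ⟨y2, h2⟩ := h2
  obtain ⟨u, v, huv⟩ := hab
  refine ⟨y1 * (v * b) + y2 * (u * a), IsCoprime.mul_dvd ⟨u, v, huv⟩ ?_ ?_⟩
  · have hd : a ∣ (y1 * (v * b) + y2 * (u * a)) - y1 :=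
      ⟨y2 * u - y1 * u, by linear_combination y1 * huv⟩
    have := (hd.trans (sub_dvd_pow_sub_pow _ _ 5)).add h1
    simpa using this
  · have hd : b ∣ (y1 * (v * b) + y2 * (u * a)) - y2 :=
      ⟨y1 * v - y2 * v, by linear_combination y2 * huv⟩
    have := (hd.trans (sub_dvd_pow_sub_pow _ _ 5)).add h2
    simpa using this

lemma four (n : ℤ) (hn : n % 4 ≠ 2) : ∃ y : ℤ, (4 : ℤ) ∣ y ^ 5 - n := by
  have : n % 4 = 0 ∨ n % 4 = 1 ∨ n % 4 = 3 := by omega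
  rcases this with h | h | h
  · exact ⟨0, by norm_num; omega⟩
  · exact ⟨1, by norm_num; omega⟩
  · exact ⟨3, by norm_num; omega⟩

lemma root (q : ℕ) (hq : q = 13 ∨ q = 43) (n : ℤ) (hn : n % 4 ≠ 2) :
    ∃ y : ℤ, (60 * q : ℤ) ∣ y ^ 5 - n := by
  have h3 := fifth_root 3 (by simp) n
  have h5 := fifth_root 5 (by simp) n
  have hq' := fifth_root q (by tauto) n
  have h12 := combine (a := 4) (b := (3 : ℕ)) (by norm_num [Int.isCoprime_iff_gcd_eq_one]) n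
    (four n hn) h3
  have h60 := combine (a := 4 * (3 : ℕ)) (b := (5 : ℕ))
    (by norm_num [Int.isCoprime_iff_gcd_eq_one]) n h12 h5
  have h := combine (a := 4 * (3 : ℕ) * (5 : ℕ)) (b := q)
    (by rcases hq with rfl | rfl <;> norm_num [Int.isCoprime_iff_gcd_eq_one]) n h60 hq'
  have e : (4 * ((3 : ℕ) : ℤ) * ((5 : ℕ) : ℤ) * (q : ℤ)) = 60 * q := by push_cast; ring
  rwa [e] at h

lemma sum_nine (n : ℤ) : ∃ y : Fin 9 → ℤ, n = ∑ i, y i ^ 5 := by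
  by_cases hn : n % 4 = 2
  · obtain ⟨y, x, hx⟩ := root 43 (by simp) (n - 1290) (by omega)
    refine ⟨![y, -x + 5, -x - 4, -(-x + 4), -(-x - 3), -(2 * -x + 2), -(2 * -x), 2 * -x + 1,
      2 * -x + 1], ?_⟩
    simp only [Fin.sum_univ_succ, Fin.sum_univ_zero, Matrix.cons_val_zero, Matrix.cons_val_succ]
    push_cast at hx
    linear_combination (-1 : ℤ) * hx
  · obtain ⟨y, x, hx⟩ := root 13 (by simp) n hn
    refine ⟨![y, -x + 3, -x - 3, -(-x + 1), -(-x - 1), -(2 * -x + 1), -(2 * -x - 1), 2 * -x,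
      2 * -x], ?_⟩
    simp only [Fin.sum_univ_succ, Fin.sum_univ_zero, Matrix.cons_val_zero, Matrix.cons_val_succ]
    push_cast at hx
    linear_combination (-1 : ℤ) * hx

/-- `ν(5) ≤ 9`: nine signed fifth powers suffice. -/
theorem result : Suffices 5 9 ∧ nu 5 ≤ 9 := by
  have h : Suffices 5 9 := fun n _ => by
    obtain ⟨y, hy⟩ := sum_nine n
    exact of_int n y hy
  exact ⟨h, Nat.sInf_le ⟨by norm_num, h⟩⟩

end Pool.Agent.Results.MP_143a03_nt.NuFiveLeNine
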