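import Pool.Agent.Lib.MP_143a03_nt.Count

namespace Pool.Agent.Results.MP_143a03_nt.NuGeFour

open Finset

/-- `m` terms suffice for exponent `k`: every positive integer is a signed sum of `m`
`k`-th powers of nonnegative integers. -/
def Suffices (k m : ℕ) : Prop :=
  ∀ n : ℕ, 0 < n → ∃ (x : Fin m → ℕ) (ε : Fin m → ℤ),
    (∀ i, ε i = 1 ∨ ε i = -1) ∧ (n : ℤ) = ∑ i, ε i * (x i : ℤ) ^ k

/-- The easier Waring number `ν(k)`: the least positive `m` such that `m` terms suffice. -/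
noncomputable def nu (k : ℕ) : ℕ := sInf {m : ℕ | 0 < m ∧ Suffices k m}

/-- `n` is a signed sum of `m` `k`-th powers. -/
def Rep (k m : ℕ) (n : ℤ) : Prop :=
  ∃ (x : Fin m → ℕ) (ε : Fin m → ℤ), (∀ i, ε i = 1 ∨ ε i = -1) ∧ n = ∑ i, ε i * (x i : ℤ) ^ k

variable {k m m' : ℕ} {n n' : ℤ}

lemma Rep.add (h : Rep k m n) (h' : Rep k m' n') : Rep k (m + m') (n + n') := by
  obtain ⟨x, ε, h1, h2⟩ := h
  obtain ⟨x', ε', h1', h2'⟩ := h'
  refine ⟨Fin.append x x', Fin.append ε ε', fun i => ?_, ?_⟩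
  · refine Fin.addCases (fun i => ?_) (fun i => ?_) i
    · simpa using h1 i
    · simpa using h1' i
  · rw [Fin.sum_univ_add, h2, h2']
    simp

lemma Rep.neg (h : Rep k m n) : Rep k m (-n) := by
  obtain ⟨x, ε, h1, h2⟩ := h
  refine ⟨x, fun i => -ε i, fun i => ?_, ?_⟩
  · rcases h1 i with h | h <;> simp [h]
  · rw [h2, ← sum_neg_distrib]
    simp

lemma rep_pow (x : ℕ) : Rep k 1 ((x : ℤ) ^ k) :=
  ⟨fun _ => x, fun _ => 1, fun _ => Or.inl rfl, by simp⟩

lemma rep_small (hk : k ≠ 0) (m : ℕ) : ∀ n : ℤ, |n| ≤ m → Rep k m n := by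
  induction m with
  | zero =>
    intro n hn
    exact ⟨fun _ => 0, fun _ => 1, fun _ => Or.inl rfl, by simpa using hn⟩
  | succ m ih =>
    intro n hn
    push_cast at hn
    have h1 : Rep k 1 1 := by simpa using rep_pow (k := k) 1
    have h0 : Rep k 1 0 := by simpa [hk] using rep_pow (k := k) 0
    rw [abs_le] at hn
    rcases lt_trichotomy n 0 with h | h | h
    · simpa using (ih (n + 1) (by rw [abs_le]; omega)).add h1.neg
    · simpa using (ih n (by rw [abs_le]; omega)).add h0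
    · simpa using (ih (n - 1) (by rw [abs_le]; omega)).add h1

lemma rep_diff (k j : ℕ) : ∀ x : ℕ, Rep k (2 ^ j) ((fwdDiff 1)^[j] (fun r : ℤ => r ^ k) x) := by
  induction j with
  | zero => exact fun x => rep_pow x
  | succ j ih =>
    intro x
    rw [Function.iterate_succ_apply', fwdDiff, pow_succ, mul_two, sub_eq_add_neg]
    exact_mod_cast (ih (x + 1)).add (ih x).neg

lemma exists_suffices (hk : k ≠ 0) : ∃ m, 0 < m ∧ Suffices k m := by
  obtain ⟨j, rfl⟩ := Nat.exists_eq_succ_of_ne_zero hk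
  set g := (fwdDiff 1)^[j] (fun r : ℤ => r ^ (j + 1)) with hg
  have h1 : ∀ x : ℤ, g (x + 1) - g x = (j + 1).factorial := by
    intro x
    have := congrFun (fwdDiff_iter_eq_factorial (R := ℤ) (n := j + 1)) x
    rwa [Function.iterate_succ_apply'] at this
  have h2 : ∀ x : ℕ, g x = g 0 + (j + 1).factorial * x := by
    intro x
    induction x with
    | zero => simp
    | succ x ih => push_cast; linear_combination ih + h1 x
  refine ⟨2 ^ j + ((j + 1).factorial + (g 0).natAbs), by positivity, fun n _ => ?_⟩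
  have h3 := (rep_diff (j + 1) j (n / (j + 1).factorial)).add
    (rep_small hk ((j + 1).factorial + (g 0).natAbs) ((n % (j + 1).factorial : ℕ) - g 0) (by
      have := Nat.mod_lt n (j + 1).factorial_pos
      rw [abs_le]
      omega))
  rw [← hg, h2] at h3
  have h4 : ((j + 1).factorial : ℤ) * (n / (j + 1).factorial : ℕ) + (n % (j + 1).factorial : ℕ) = n := by
    exact_mod_cast Nat.div_add_mod n (j + 1).factorial
  have h5 : Rep (j + 1) (2 ^ j + ((j + 1).factorial + (g 0).natAbs)) n := by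
    convert h3 using 1; linear_combination -h4
  exact h5

lemma Rep.three (hk : k ≠ 0) (hm : m ≤ 3) (h : Rep k m n) : Rep k 3 n := by
  have := h.add (rep_small hk (3 - m) 0 (by simp))
  rwa [add_zero, Nat.add_sub_cancel' hm] at this

lemma Rep.odd {p : ℕ} (hp : Odd p) (hd : p ∣ k) (h : Rep k 3 n) :
    ∃ x y z : ℤ, x ^ p + y ^ p + z ^ p = n := by
  obtain ⟨x, ε, h1, h2⟩ := h
  obtain ⟨c, rfl⟩ := hd
  have h3 : ∀ i, (ε i * (x i : ℤ) ^ c) ^ p = ε i * (x i : ℤ) ^ (p * c) := by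
    intro i
    rw [mul_pow, ← pow_mul, mul_comm c p]
    rcases h1 i with h | h <;> simp [h, hp.neg_one_pow]
  exact ⟨ε 0 * x 0 ^ c, ε 1 * x 1 ^ c, ε 2 * x 2 ^ c, by
    rw [h3 0, h3 1, h3 2, h2, Fin.sum_univ_three]⟩

lemma exists_not_rep (hk : 3 ≤ k) : ∃ n : ℕ, 0 < n ∧ ¬ Rep k 3 n := by
  obtain ⟨c, rfl⟩ | ⟨p, hp, hd, ho⟩ := Nat.four_dvd_or_exists_odd_prime_and_dvd_of_two_lt hk
  · refine ⟨8, by norm_num, ?_⟩
    rintro ⟨x, ε, h1, h2⟩
    have h3 : ∀ i, ((ε i * (x i : ℤ) ^ (4 * c) : ℤ) : ZMod 16) ∈ ({0, 1, -1} : Finset (ZMod 16)) := by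
      intro i
      have key : ∀ a : ZMod 16, a ^ 4 ∈ ({0, 1, -1} : Finset (ZMod 16)) ∧
          -a ^ 4 ∈ ({0, 1, -1} : Finset (ZMod 16)) := by decide
      rw [mul_comm 4 c, pow_mul]
      rcases h1 i with h | h <;> rw [h] <;> push_cast
      · rw [one_mul]; exact (key _).1
      · rw [neg_one_mul]; exact (key _).2
    have key : ∀ a ∈ ({0, 1, -1} : Finset (ZMod 16)), ∀ b ∈ ({0, 1, -1} : Finset (ZMod 16)),
        ∀ c ∈ ({0, 1, -1} : Finset (ZMod 16)), a + b + c ≠ 8 := by decide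
    refine key _ (h3 0) _ (h3 1) _ (h3 2) ?_
    rw [← Int.cast_add, ← Int.cast_add, ← Fin.sum_univ_three (fun i => ε i * (x i : ℤ) ^ (4 * c)),
      ← h2]
    norm_num
  · by_cases h3 : p = 3
    · subst h3
      refine ⟨4, by norm_num, fun h => ?_⟩
      obtain ⟨x, y, z, h⟩ := h.odd ho hd
      have key : ∀ a b c : ZMod 9, a ^ 3 + b ^ 3 + c ^ 3 ≠ 4 := by decide
      apply key x y z
      exact_mod_cast congrArg (Int.cast : ℤ → ZMod 9) h
    · have := Fact.mk hp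
      have h5 : 5 ≤ p := hp.five_le_of_ne_two_of_ne_three (by rintro rfl; exact absurd ho (by decide)) h3
      obtain ⟨n, hn, h⟩ := Pool.Agent.Lib.MP_143a03_nt.exists_not_sum h5
      refine ⟨n, hn, fun h' => ?_⟩
      obtain ⟨x, y, z, h'⟩ := h'.odd ho hd
      exact h x y z h'

/-- `ν(k) ≥ 4` for every `k ≥ 3`. -/
theorem result (k : ℕ) (hk : 3 ≤ k) : 4 ≤ nu k := by
  have hk0 : k ≠ 0 := by omega
  have h1 : 0 < nu k ∧ Suffices k (nu k) := Nat.sInf_mem (exists_suffices hk0)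
  by_contra hc
  obtain ⟨n, hn, h⟩ := exists_not_rep hk
  exact h (Rep.three hk0 (by omega) (h1.2 n hn))

end Pool.Agent.Results.MP_143a03_nt.NuGeFour
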